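import Pool.Agent.MWHQ.Stmts
import Pool.Agent.MWZ.FullStmts

/-!
# Block MWGP: the gamma world, system M1 for arbitrary period (rows)

`xyx ≈ xyx^(n+1)`, `x²y² ≈ y²x²`, two letters with another common block commute, interior
occurrences of a letter are free (base (h) of block MWHP): the lattice is distributive.  Every row:
file `Pool/Agent/HelperNN_MWGP/XXX.lean`, import `Pool.Agent.MWGP.Stmts`, namespace
`Pool.Agent.MWGP.HNN`, theorem `xxx (hypotheses = rows in uses, in this order) : XxxStmt`.  Rows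
`MWHP.X` are in `MWHP/StmtsP.lean`, rows `MWHQ.X` in `MWHQ/Stmts.lean`, rows `MWL.X` in
`MWL/Stmts.lean`; `Stt`, `W`, `Vd`, `Vs`, `Tr`, `Eg` in `MWH/Defs.lean`, `TrA` (all transitions) in
`MWH/StmtsB.lean`; the bits `Has n R`, `Ab n R k a j`, `ad n a j = a + 2n e_j`, `LR n R` in
`MWL/Defs.lean`.  The files of the rows of MWHP and MWHQ are good templates (tables mwhp, mwhq,
column path).
-/

namespace Pool.Agent.MWGP

open Pool.Agent.Helper14_MV Pool.Agent.Helper2_MV Pool.Agent.MVO Pool.Agent.MWL Pool.Agent.MWS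
  Pool.Agent.MWH

/-- the system M1 -/
structure M1 (n : ℕ) (β : FIC) : Prop extends MWHP.BaseH n β where
  hh : RR β [0, 0, 1, 1] [1, 1, 0, 0]
  j2 : RR β [0, 1, 0] (0 :: 1 :: List.replicate (n + 1) 0)

/-- all entries behind the first non-zero entry are zero or at least two -/
def Gm (k : ℕ) (a : ℕ → ℕ) : Prop := ∀ l j, l < j → j ≤ k → a l ≠ 0 → a j ≠ 0 → 2 ≤ a j

/-- `x^(n+1)y^(n+1) ≈ y^(n+1)x^(n+1)` -/
def Rn (n : ℕ) (S : List ℕ → List ℕ → Prop) : Prop :=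
  S (List.replicate (n + 1) 0 ++ List.replicate (n + 1) 1)
    (List.replicate (n + 1) 1 ++ List.replicate (n + 1) 0)

/-- the identities of M1 -/
structure LitM (n : ℕ) (S : List ℕ → List ℕ → Prop) : Prop where
  pos : 1 ≤ n
  per : MWZ.Per n S
  ga : MWZ.Ga n S
  rn : Rn n S
  f : MVO.Sys.F S
  i1 : MWZ.I1 n S
  i2 : MWZ.I2 S

/-! ### types of letters -/

/-- **NRG** (uses MWL.TRN).  Normal vectors.
PROOF.  Let `l < j ≤ k`, `a l ≠ 0`, `a j ≠ 0`; by `Nrm` it is enough that `a` absorbs at `j` in `FC.ofFIC β`.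
`(1,1)` absorbs at `1` (`k = 1`): this is `RR β [0,2,0] ([0,2] ++ 0^(1+2n))` (`FC.ofFIC`, `mw`): `j2` with the letter
`1` renamed to `2` (`RR.sub`) gives `[0,2,0] ~ [0,2] ++ 0^(n+1)`, and `0^(n+1) ~ 0^(2n+1)` is `ap` (`0^2 ~ 0^(n+2)`) with
`0^(n-1)` appended.  TRN (4) with `f r = if r = 0 then l else j`: `psh 1 f (fun _ => 1)` has the entry `1` at `l` and
`j` and `0` elsewhere.  TRN (2): add `d r := a r - (if r = l ∨ r = j then 1 else 0)`; TRN (3). -/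
def NrgStmt : Prop :=
  ∀ (n : ℕ) (β : FIC), M1 n β → ∀ (k : ℕ) (a : ℕ → ℕ), MWHP.Nrm n (FC.ofFIC β) k a → Gm k a

/-- **GD0** (uses MWL.TA1).  An entry `1` absorbs iff `D 0`.
PROOF.  `a l = 0` for `l < j` (otherwise `2 ≤ a j` by `Gm`), so `∀ p ≤ j, a p ≤ 1` and `lb a j = 0` (the filtered set
is empty).  As `2 ≤ deg k a` and `a j = 1` there is `q ≤ k`, `q ≠ j` with `a q ≠ 0` (`deg k a` is the sum of the
entries on `0..k`); so `j < q` and `2 ≤ a q` by `Gm`.  TA1, last part. -/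
def Gd0Stmt : Prop :=
  ∀ (n : ℕ) (R : FC), LR n R → ∀ (k : ℕ) (a : ℕ → ℕ) (j : ℕ), Gm k a → 2 ≤ deg k a → j ≤ k →
    a j = 1 → (Ab n R k a j ↔ Has n R (Bit.D 0))

/-! ### free pairs -/

/-- **HHG** (uses MWHP.ALL, MWHQ.PIN).  Two heavy letters commute.
PROOF.  Word for word as the row HH2 of MWHQ (`Helper43_MWHQ/HH2.lean`): it uses only `hh` and `BaseH`. -/
def HhgStmt : Prop :=
  ∀ (n : ℕ) (β : FIC), M1 n β → ∀ (k : ℕ) (a b : ℕ → ℕ) (i : ℕ), Vd k a b i → 2 ≤ a i → 2 ≤ b i →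
    TrA β k a b i

/-- **D0T** (uses MWHP.LRNN, MWHP.ABI, MWHP.ABJ, GD0, HHG).  If `θ` has `D 0`, all pairs are free.
PROOF.  `LR n (FC.ofFIC θ)` by LRNN.  If `a i = 1` then `a` absorbs at `i` in `θ` (GD0, `Vd.ik`, `Vd.da`); ABI with
`j = i`: `a1 = ad n a i`, `Vd k a1 b i` and `W a b i s ~θ W a1 b i s` if `Vs a b i s`; `2 ≤ a1 i`.  If `2 ≤ a i` let
`a1 = a`.  In the same way for `b` and `a1` (ABJ with `j = i`): `b1`.  HHG: `TrA β k a1 b1 i`.  So
`W a b i s ~θ W a1 b1 i s ~β W a1 b1 i s' ~θ W a b i s'` (`Vs a b i s` implies `Vs a1 b i s` and `Vs a1 b1 i s`;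
`a i ≠ 0`, so `a i = 1` or `2 ≤ a i`). -/
def D0tStmt : Prop :=
  ∀ (n : ℕ) (β θ : FIC), M1 n β → β ≤ θ → Has n (FC.ofFIC θ) (Bit.D 0) → ∀ (k : ℕ)
    (a b : ℕ → ℕ) (i : ℕ), Vd k a b i → Gm k a → Gm k b → TrA θ k a b i

/-! ### the join prime criterion with two sets -/

/-- **RS0** (uses MWHP.NFE, MWH.OKW).  Residues of the first letter can be changed with a one letter
identity (twin of MWHP.RES).
PROOF.  `rr_ins` (or `rr_ins'`) for the words `mw k c`, `mw k c'` with `h 0 = [0]`: block `j ≠ i` of `W` is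
`0^(a j) ++ 1^(b j)` (`P j = []`, `Q j = 1^(b j)`).  `s = xy`: `c = a`, `c' = a'`, block `i`: `0^(a i) ++ 1^(b i)`.
`s = yx`: `1^(b i) ++ 0^(a i)`.  `s = ov` and `a i = 1` (then `a' i = 1` by `Sh`): `c = a`, block `i`:
`[1] ++ 0^(a i) ++ 1^(b i - 1)`.  `s = ov` and `2 ≤ a i` (then `2 ≤ a' i` by `Sh`): `c = a + (n-1) e_i`,
`c' = a' + (n-1) e_i` (`FC.add` for `FC.ofFIC θ`), block `i`: `[0] ++ 1^(b i) ++ 0^(a i + n - 1)`: it has `a i + n`
letters `0`, and is `RR β` to `W a b i ov` by NFE (`EqT`: `a i + n ≡ a i`; facts: an `x` behind a `y` and a `y` behind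
an `x` in both words, OKW). -/
def Rs0Stmt : Prop :=
  ∀ (n : ℕ) (β θ : FIC), MWHP.BaseH n β → β ≤ θ → ∀ (k : ℕ) (a a' b : ℕ → ℕ) (i : ℕ),
    Vd k a b i → Vd k a' b i → Sh k a a' → L1 θ k a a' → ∀ s : Stt, Vs a b i s →
      RR θ (asm k (W a b i s)) (asm k (W a' b i s))

/-- **JP2** (uses MVO.ONE, MWL.TRN, MWL.ABS, MWL.KEY, MWHP.LRNN, MWA.NDQ, MWHP.JPIN, MWHP.NFE,
MWH.OKW, MWHP.SHW, MWHP.RES, RS0).  The join prime criterion with two sets `F`, `G` of free blocks.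
PROOF.  As MWHP.JPX (template: its file, table mwhp), both letters are treated as `1` is treated
there.  JPIN with `B0 = W a b i s`, `B1 = W a b i s'` and `A B :=` (`(B j).count 0 = a j` for `j ≤ k`, `¬ G j`) and
(`(B j).count 1 = b j` for `j ≤ k`, `¬ F j`) and the fact `Bef (B i) 0 1` if `s = xy`, `Bef (B i) 1 0` if `s = yx`.  Note
`¬ G i` because `a i = 1`, so the number of letters `0` in block `i` is always `1`.
Invariance: `θ ≥ β`, `NC2 θ`, not `Tr θ k a b i s s'`, `B`, `B'` related in `θ`, `A B`.  COUNTS: let `a1 = ty B 0`,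
`a1' = ty B' 0`; ONE: `L1 θ k a1 a1'`.  Let `j ≤ k`, `¬ G j`.  If `a1` absorbs at `j` in `θ`, then so does `c := a1 + d`
(TRN (2)), `d t = (n-1) * a1 t + a t` if `G t` and `0` otherwise (`c t = n * a1 t + a t ≥ 2`, `≡ a t`, on `G`; `c t = a t` off
`G`); `Nq n k c a`, ABS (2), TRN (1): `a` absorbs at `j`, excluded.  So KEY (`ND` by NDQ and `BasN.cap`, `LR` by LRNN):
`a1' j = a1 j = a j`.  The same for `1` with `b`, `F`.
FACT: suppose the fact fails for `B' i`.  Insert `[0,0]` at the end of the blocks `j ∈ G` (`j ≠ i`; there `a j ≥ 2`, so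
`b j = 0` and `¬ F j`, hence block `j` of `B` and `B'` contains no letter `1`), and `[1,1]` in the blocks of `F`: at the
end if `s = xy`, in front if `s = yx` (`rr_ins'`): `D`, `D'`, related in `θ`.  Their types `c = ty D 0`, `c' = ty D' 0` have
the shape of `a`, and `e = ty D 1`, `e' = ty D' 1` the shape of `b`; so `Vd` holds for all of them.  (i) `b i = 1`,
`s = xy`, `s' = yx` (`¬ F i`): block `i` of `D` is `[0,1]`, of `D'` it is `[1,0]`.  (ii) `F i`, `s = xy`, `s' = ov`: block `i` of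
`D` has no `0` behind a `1`, block `i` of `D'` is `B' i ++ [1,1]` and has a `0` behind a `1` and a `1` behind the `0`.
(iii) `F i`, `s = yx`, `s' = ov`: the same with `[1,1]` in front.  NFE: `D ~β W c e i s`, `D' ~β W c' e' i s'`.  ONE:
`L1 θ k c c'`, `L1 θ k e e'`.  RS0 and RES: `W c' e' i s' ~θ W c e' i s' ~θ W c e i s'`.  So `Tr θ k c e i s s'`; SHW:
`Tr θ k a b i s s'`, contradiction. -/
def Jp2Stmt : Prop :=
  ∀ (n : ℕ) (β : FIC), MWHP.BaseH n β → ∀ (k : ℕ) (a b : ℕ → ℕ) (i : ℕ) (F G : ℕ → Prop),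
    Vd k a b i → a i = 1 → (∀ j ≤ k, F j → 2 ≤ b j) → (∀ j ≤ k, G j → 2 ≤ a j) → ∀ s s' : Stt,
      ((b i = 1 ∧ s = Stt.xy ∧ s' = Stt.yx) ∨
        (F i ∧ s = Stt.xy ∧ s' = Stt.ov) ∨ (F i ∧ s = Stt.yx ∧ s' = Stt.ov)) →
      (∀ θ : FIC, β ≤ θ → NC2 θ → ¬ Tr θ k a b i s s' →
        (∀ j ≤ k, ¬ G j → ¬ Ab n (FC.ofFIC θ) k a j) ∧
          (∀ j ≤ k, ¬ F j → ¬ Ab n (FC.ofFIC θ) k b j)) →
        JPp β (asm k (W a b i s), asm k (W a b i s'))

/-- **JPG** (uses MWHP.LRNN, MWHP.ABO, GD0, D0T, JP2).  Pairs without empty blocks are join prime.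
PROOF.  JP2 with `F j := 2 ≤ b j`, `G j := 2 ≤ a j` (`F i` if `2 ≤ b i`).  Condition: let `θ ≥ β`, not `Tr θ k a b i s s'`
(`Vs a b i s`, `Vs a b i s'` hold because `2 ≤ b i` if `ov` occurs).  Suppose `a` absorbs in `θ` at `j ≤ k` with
`a j ≤ 1`.  If `a j = 0`: `b j ≠ 0`, and `j ≠ i` (`a i = 1`): ABO gives `Tr θ k a b i s s'`, contradiction.  If
`a j = 1`: GD0 (LRNN): `D 0` in `θ`, D0T: `TrA θ`, contradiction.  Suppose `b` absorbs in `θ` at `j` with `b j ≤ 1`.  If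
`b j = 0`: `a j ≠ 0`, `j ≠ i` (`Vd.bi`): ABO.  If `b j = 1`: GD0 and D0T. -/
def JpgStmt : Prop :=
  ∀ (n : ℕ) (β : FIC), M1 n β → ∀ (k : ℕ) (a b : ℕ → ℕ) (i : ℕ), Vd k a b i → Gm k a → Gm k b →
    a i = 1 → (∀ j ≤ k, a j ≠ 0 ∨ b j ≠ 0) →
      (b i = 1 → JPp β (asm k (W a b i Stt.xy), asm k (W a b i Stt.yx))) ∧
      (2 ≤ b i → JPp β (asm k (W a b i Stt.xy), asm k (W a b i Stt.ov)) ∧
        JPp β (asm k (W a b i Stt.yx), asm k (W a b i Stt.ov)))

/-- **RDG** (uses MWHQ.DLB, JPG).  All pairs with a light letter.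
PROOF.  As the row RDL of MWHQ.  Induction on `k` (for all `a b i`).  If `a j ≠ 0 ∨ b j ≠ 0` for all `j ≤ k`: JPG, the
lists are `[(asm k (W a b i xy), asm k (W a b i yx))]` etc.  Otherwise there is `j ≤ k` with `a j = 0`, `b j = 0`;
`j ≠ i` (`Vd.ai`), so `k ≥ 1`, write `k = k' + 1`.  DLB for `θ = β` (`f r := if r < j then r else r + 1`) gives `i'` with
`f i' = i` and `Vd k' (a ∘ f) (b ∘ f) i'`; `Gm k' (a ∘ f)`, `Gm k' (b ∘ f)` (`f` is strictly increasing, `f r ≤ k' + 1`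
for `r ≤ k'`); `a (f i') = 1`.  The induction hypothesis gives the lists for the smaller word, and DLB for `θ` shows
that they work for `a, b` (`i'` is the same for all `θ` since `f` is injective; `Vs` of the small word is `Vs` of
the large one because `f i' = i`). -/
def RdgStmt : Prop :=
  ∀ (n : ℕ) (β : FIC), M1 n β → ∀ (k : ℕ) (a b : ℕ → ℕ) (i : ℕ), Vd k a b i → Gm k a → Gm k b →
    a i = 1 → (b i = 1 → Eg β k a b i Stt.xy Stt.yx) ∧
      (2 ≤ b i → Eg β k a b i Stt.xy Stt.ov ∧ Eg β k a b i Stt.yx Stt.ov)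

/-- **EDG** (uses MWHP.EDV, NRG, HHG, RDG).  The edges of M1.
PROOF.  EDV.  `Gm k a`, `Gm k b` by NRG.  (1) `a i = b i = 1`: RDG.  (2) `2 ≤ b i`: if `a i = 1`: RDG; if `2 ≤ a i`: HHG,
`L = []` (`TrA β`, then `h _ _`; `Vs` holds).  (`a i ≠ 0` by `Vd.ai`.) -/
def EdgStmt : Prop := ∀ (n : ℕ) (β : FIC), M1 n β → MWHP.EdgeN n β

/-- **DIG** (uses MWHP.TLMN, MWHP.SWH, EDG).  PROOF.  TLMN with SWH and EDG; `BasN` from `BaseH`. -/
def DigStmt : Prop := ∀ (n : ℕ) (β : FIC), M1 n β → DistF β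

/-! ### the bridge from the identities -/

/-- **GAP** (uses nothing).  Non-first occurrences may be repeated; they commute.
PROOF.  (1) Let `p = p1 ++ x :: p2`.  `ga` with `0 ↦ [x]`, `1 ↦ p2` (`RR.sub`): `x p2 x ~ x p2 x^(n+1)` (flatMap of
`replicate`: `List.flatMap_replicate` or induction), multiplied with `p1` on the left and `q` on the right
(`RR.append`).  (2) `x ∈ p`, `y ∈ p`, `x ≠ y` (if `x = y` trivial).  `p x y q ~ p x^(n+1) y q` by (1) `~
p x^(n+1) y^(n+1) q` by (1) for `y` with `p := p ++ x^(n+1)` `~ p y^(n+1) x^(n+1) q` by `rn` (`0 ↦ [x]`, `1 ↦ [y]`)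
`~ p y x^(n+1) q ~ p y x q` by (1) backwards. -/
def GapStmt : Prop :=
  ∀ (n : ℕ) (β : FIC), MWZ.Ga n (RR β) → Rn n (RR β) → ∀ (p q : List ℕ) (x y : ℕ), x ∈ p →
    RR β (p ++ x :: q) (p ++ (List.replicate (n + 1) x ++ q)) ∧
    (y ∈ p → RR β (p ++ x :: y :: q) (p ++ y :: x :: q))

/-- **FCM** (uses GAP).  Two letters with another common block commute.
PROOF.  Let `C`, `i`, `j`, `A`, `D`, `x`, `y` be as in `Cm2`.  `asm k C = pre ++ (A ++ x :: y :: D) ++ suf`,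
`asm k (update ..) = pre ++ (A ++ y :: x :: D) ++ suf` (`asm_split`, `asm_update`).  If `j < i`: `x` and `y` are
letters of `pre` (`mem_pre` or `asm_split` at `j`): GAP (2).  If `i < j`: `suf = m1 ++ C j ++ m2`.  As `x, y ∈ C j`,
`x ≠ y`, either `C j = P ++ x :: (c ++ y :: Q)` or `C j = P ++ y :: (c ++ x :: Q)` (`List.append_of_mem` for `x`,
then `y` is before or behind).  The letters of `c` are letters of the block `j`, so they occur at least twice
in the word (`Mlt`, `count_asm`).  First case: `f` with `p := pre ++ A`, `q := D ++ m1 ++ P`, `r := Q ++ m2`.  Second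
case: `f` with `x`, `y` exchanged (its left hand side is our right hand side; the counts are the same), and
symmetry. -/
def FcmStmt : Prop :=
  ∀ (n : ℕ) (β : FIC), LitM n (RR β) → Cm2 β

/-- **BRG** (uses MWHP.CPH, GAP, FCM).  The identities imply `M1`.
PROOF.  `cm2`: FCM.  `cap`: CPH.  `pos`; `ap` is `per`.  `rr`: GAP (1) with `p = [0,0,2]`, `x = 0`, `q = []`.  `j2` is `ga`.
`itn`: `one` is `i1`, `two` is `i2` (`MVO.Sys.Mul`; `Mul (c ++ d)` and `c ∈ w ∨ c ∈ w'` by `List.mem_append`).  `ic`: `f` with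
`p = q = c = r = []`, `x = 0`, `y = 1`: `[0,1,0,1] ~ [1,0,0,1]`; GAP (2) with `p = [1,0]`, `x = 0`, `y = 1`, `q = []`:
`[1,0,0,1] ~ [1,0,1,0]`.  `hh`: `rn` with `0 ↦ [0,0]`, `1 ↦ [1,1]`: `0^(2n+2) 1^(2n+2) ~ 1^(2n+2) 0^(2n+2)`, and
`0^2 ~ 0^(2n+2)` by `per` twice (append `0^n` to `0^2 ~ 0^(n+2)`). -/
def BrgStmt : Prop := ∀ (n : ℕ) (β : FIC), LitM n (RR β) → M1 n β

/-- **SGM** (uses DIG, BRG).  PROOF.  DIG; `DistF β` implies `ModF β` (search for the existing lemma, e.g. in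
`Helper14_MV` or `MWH`; rows with `DistF` to `ModF` exist in MWA, MWH). -/
def SgmStmt : Prop := ∀ (n : ℕ) (β : FIC), LitM n (RR β) → DistF β ∧ ModF β

end Pool.Agent.MWGP
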